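import Mathlib
import Pool.Agent.H715R2.Uncountable

/-! # Continuum many counterexamples to Oppenheim's conjecture from one -/

set_option autoImplicit false
set_option linter.unusedSectionVars false

open Filter Topology Matrix H715R2

namespace Pool.Agent.Y705.OP

variable {d : ℕ}

/-- the values of the product at the integer points -/
noncomputable def Phi (g : Matrix (Fin d) (Fin d) ℝ) : (Fin d → ℤ) → ℝ := fun m => FF g (iR m)

/-- the real vector of a rational vector -/
noncomputable def qR (x : Fin d → ℚ) : Fin d → ℝ := fun j => (x j : ℝ)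

/-- equivalence over the rational numbers up to a real factor -/
def QE (g h : Matrix (Fin d) (Fin d) ℝ) : Prop :=
  ∃ (c : ℝ) (γ : Matrix (Fin d) (Fin d) ℚ), c ≠ 0 ∧ IsUnit γ.det ∧
    ∀ x : Fin d → ℚ, FF g (qR x) = c * FF h (qR (γ *ᵥ x))

lemma QE.refl (g : Matrix (Fin d) (Fin d) ℝ) : QE g g :=
  ⟨1, 1, one_ne_zero, by simp, fun x => by simp⟩

lemma QE.symm {g h : Matrix (Fin d) (Fin d) ℝ} (H : QE g h) : QE h g := by
  obtain ⟨c, γ, hc, hγ, H⟩ := H
  refine ⟨c⁻¹, γ⁻¹, inv_ne_zero hc, ?_, fun x => ?_⟩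
  · exact isUnit_nonsing_inv_det _ hγ
  · rw [H, mulVec_mulVec, mul_nonsing_inv _ hγ, one_mulVec, ← mul_assoc, inv_mul_cancel₀ hc,
      one_mul]

lemma QE.trans {g h k : Matrix (Fin d) (Fin d) ℝ} (H : QE g h) (H' : QE h k) : QE g k := by
  obtain ⟨c, γ, hc, hγ, H⟩ := H
  obtain ⟨c', γ', hc', hγ', H'⟩ := H'
  refine ⟨c * c', γ' * γ, mul_ne_zero hc hc', ?_, fun x => ?_⟩
  · rw [det_mul]
    exact hγ'.mul hγ
  · rw [H, H', mulVec_mulVec, mul_assoc]

lemma FF_smul (g : Matrix (Fin d) (Fin d) ℝ) (a : ℝ) (x : Fin d → ℝ) :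
    FF g (a • x) = a ^ d * FF g x := by
  unfold FF
  have : ∀ i, ∑ j, g i j * (a • x) j = a * ∑ j, g i j * x j := by
    intro i
    rw [Finset.mul_sum]
    refine Finset.sum_congr rfl fun j _ => ?_
    rw [Pi.smul_apply, smul_eq_mul]
    ring
  rw [Finset.prod_congr rfl fun i _ => this i, Finset.prod_mul_distrib, Finset.prod_const,
    Finset.card_univ, Fintype.card_fin]

/-- every rational vector is an integral one divided by a positive integer -/
lemma exists_int (x : Fin d → ℚ) : ∃ (N : ℕ) (y : Fin d → ℤ), 0 < N ∧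
    ∀ j, (N : ℚ) * x j = (y j : ℚ) := by
  classical
  refine ⟨∏ j, (x j).den, fun j => (∏ i ∈ Finset.univ.erase j, ((x i).den : ℤ)) * (x j).num,
    Finset.prod_pos fun j _ => (x j).den_pos, fun j => ?_⟩
  rw [← Finset.mul_prod_erase Finset.univ (fun i => (x i).den) (Finset.mem_univ j)]
  push_cast
  have h1 : ((x j).den : ℚ) * x j = (x j).num := Rat.den_mul_eq_num (x j)
  calc ((x j).den : ℚ) * (∏ i ∈ Finset.univ.erase j, ((x i).den : ℚ)) * x j
      = (∏ i ∈ Finset.univ.erase j, ((x i).den : ℚ)) * (((x j).den : ℚ) * x j) := by ring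
    _ = _ := by rw [h1]

/-- an identity at the integer points holds at the rational points -/
lemma rat_of_int {g h : Matrix (Fin d) (Fin d) ℝ} {c : ℝ} {γ : Matrix (Fin d) (Fin d) ℚ}
    (H : ∀ x : Fin d → ℤ, FF g (iR x) = c * FF h (qR (γ *ᵥ fun j => (x j : ℚ))))
    (x : Fin d → ℚ) : FF g (qR x) = c * FF h (qR (γ *ᵥ x)) := by
  obtain ⟨N, y, hN, hy⟩ := exists_int x
  have h1 := H y
  have h2 : iR y = (N : ℝ) • qR x := by
    funext j
    have := congrArg (fun q : ℚ => (q : ℝ)) (hy j)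
    simp only [Rat.cast_mul, Rat.cast_natCast, Rat.cast_intCast] at this
    simp only [iR, qR, Pi.smul_apply, smul_eq_mul]
    exact this.symm
  have h3 : (fun j => (y j : ℚ)) = (N : ℚ) • x := by
    funext j
    rw [Pi.smul_apply, smul_eq_mul, hy]
  have h4 : qR (γ *ᵥ ((N : ℚ) • x)) = (N : ℝ) • qR (γ *ᵥ x) := by
    rw [mulVec_smul]
    funext j
    simp [qR]
  rw [h2, h3, h4, FF_smul, FF_smul] at h1
  have hN' : (N : ℝ) ^ d ≠ 0 := pow_ne_zero _ (by exact_mod_cast hN.ne')
  have h5 : (N : ℝ) ^ d * FF g (qR x) = (N : ℝ) ^ d * (c * FF h (qR (γ *ᵥ x))) := by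
    rw [h1]; ring
  exact mul_left_cancel₀ hN' h5

/-- an identity at the integer points with any rational matrix is an equivalence -/
lemma QE_of_int (hd : 0 < d) {g h : Matrix (Fin d) (Fin d) ℝ} {ν : ℝ} (hν : 0 < ν)
    (hnu : HasNu g ν) {c : ℝ} {γ : Matrix (Fin d) (Fin d) ℚ}
    (H : ∀ x : Fin d → ℤ, FF g (iR x) = c * FF h (qR (γ *ᵥ fun j => (x j : ℚ)))) : QE g h := by
  classical
  have H' := rat_of_int H
  have hne : ∀ x : Fin d → ℤ, x ≠ 0 → FF g (iR x) ≠ 0 := by
    intro x hx h0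
    have := hnu x hx
    rw [h0, abs_zero] at this
    exact absurd this (not_le.2 hν)
  refine ⟨c, γ, ?_, ?_, H'⟩
  · rintro rfl
    have h1 := H (fun _ => 1)
    rw [zero_mul] at h1
    exact hne _ (fun h => one_ne_zero (congrFun h ⟨0, hd⟩)) h1
  · rw [isUnit_iff_ne_zero]
    intro h0
    obtain ⟨v, hv, hv0⟩ := Matrix.exists_mulVec_eq_zero_iff.2 h0
    obtain ⟨N, y, hN, hy⟩ := exists_int v
    have h3 : (fun j => (y j : ℚ)) = (N : ℚ) • v := by
      funext j
      rw [Pi.smul_apply, smul_eq_mul, hy]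
    have hy0 : y ≠ 0 := by
      rintro rfl
      apply hv
      funext j
      have := hy j
      simp only [Pi.zero_apply, Int.cast_zero, mul_eq_zero, Nat.cast_eq_zero] at this
      rcases this with h | h
      · exact absurd h hN.ne'
      · exact h
    have h1 := H y
    rw [h3, mulVec_smul, hv0, smul_zero] at h1
    have h4 : FF h (qR (0 : Fin d → ℚ)) = 0 := by
      unfold FF
      refine Finset.prod_eq_zero (Finset.mem_univ ⟨0, hd⟩) ?_
      simp [qR]
    rw [h4, mul_zero] at h1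
    exact hne y hy0 h1

/-- infimum of the absolute values at nonzero integer points -/
noncomputable def nuF (f : (Fin d → ℤ) → ℝ) : ℝ := ⨅ x : {x : Fin d → ℤ // x ≠ 0}, |f x.1|

lemma nuF_mul (f : (Fin d → ℤ) → ℝ) (c : ℝ) : nuF (fun x => c * f x) = |c| * nuF f := by
  unfold nuF
  rw [Real.mul_iInf_of_nonneg (abs_nonneg c)]
  congr 1
  funext x
  exact abs_mul _ _

lemma nuInf_eq (h : Matrix (Fin d) (Fin d) ℝ) : nuInf h = nuF (Phi h) := rfl

lemma continuous_Phi : Continuous (Phi (d := d)) := by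
  refine continuous_pi fun m => ?_
  unfold Phi FF
  refine continuous_finsetProd _ fun i _ => continuous_finsetSum _ fun j _ => ?_
  exact (continuous_apply_apply i j).mul continuous_const

instance : SigmaCompactSpace (Matrix (Fin d) (Fin d) ℝ) :=
  inferInstanceAs (SigmaCompactSpace (Fin d → Fin d → ℝ))

theorem exists_perfect (hd : 3 ≤ d) {g : Matrix (Fin d) (Fin d) ℝ} (hg : g.det ≠ 0) {ν : ℝ}
    (hν : 0 < ν) (hnu : HasNu g ν) (hint : ¬ PropInt g) :
    ∃ (G : (ℕ → Bool) → Matrix (Fin d) (Fin d) ℝ) (μ : ℝ), 0 < μ ∧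
      (∀ t, G t ∈ closure (Orb g)) ∧ (∀ t, HasNu (G t) ν) ∧ (∀ t, ¬ PropInt (G t)) ∧
      (∀ t, nuInf (G t) = μ) ∧ Function.Injective fun t => Phi (G t) := by
  classical
  have hd0 : 0 < d := by omega
  obtain ⟨M, hMg, hMc, hMne, hMinv, hMmin⟩ := exists_minimal hd0 hν hg hnu
  have hnint : ∀ g' ∈ M, ¬ PropInt g' := by
    intro g' hg' hP
    refine hint (core hd hg hν hnu hMg hMc hMne hMinv hMmin _ (countable_VV hP) ?_)
    intro h hh m
    exact mem_VV_of_mem_closure (by rw [closure_orb_eq hMc hMinv hMmin hg']; exact hh) m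
  obtain ⟨g₁, hg₁⟩ := hMne
  have hμ0 : 0 < nuInf g₁ := hν.trans_le (le_nuInf hd0 (hasNu_closure hnu (hMg hg₁)))
  have hμM : ∀ g' ∈ M, nuInf g' = nuInf g₁ := by
    intro g' hg'
    apply le_antisymm
    · exact nuInf_le_of_mem_closure hd0 (by rw [closure_orb_eq hMc hMinv hMmin hg']; exact hg₁)
    · exact nuInf_le_of_mem_closure hd0 (by rw [closure_orb_eq hMc hMinv hMmin hg₁]; exact hg')
  -- the set of the products is uncountable
  have hunc : ¬ (Phi '' M).Countable := by
    intro hcount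
    refine hint (core hd hg hν hnu hMg hMc ⟨g₁, hg₁⟩ hMinv hMmin
      (⋃ f ∈ Phi '' M, Set.range f) (hcount.biUnion fun f _ => Set.countable_range f) ?_)
    intro h hh m
    refine Set.mem_biUnion (Set.mem_image_of_mem Phi hh) ⟨m, rfl⟩
  have hex : ∃ n : ℕ, ¬ (Phi '' (M ∩ compactCovering (Matrix (Fin d) (Fin d) ℝ) n)).Countable := by
    by_contra hcon
    push Not at hcon
    apply hunc
    have h1 : M = ⋃ n, M ∩ compactCovering (Matrix (Fin d) (Fin d) ℝ) n := by
      rw [← Set.inter_iUnion, iUnion_compactCovering, Set.inter_univ]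
    rw [h1, Set.image_iUnion]
    exact Set.countable_iUnion hcon
  obtain ⟨n, hn⟩ := hex
  have hcl : IsClosed (Phi '' (M ∩ compactCovering (Matrix (Fin d) (Fin d) ℝ) n)) :=
    (((isCompact_compactCovering _ n).inter_left hMc).image continuous_Phi).isClosed
  obtain ⟨f, hf1, -, hf2⟩ := hcl.exists_nat_bool_injection_of_not_countable hn
  have hf3 : ∀ t, ∃ h, h ∈ M ∧ Phi h = f t := by
    intro t
    obtain ⟨h, hh, he⟩ := hf1 (Set.mem_range_self t)
    exact ⟨h, hh.1, he⟩
  choose G hG1 hG2 using hf3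
  refine ⟨G, nuInf g₁, hμ0, fun t => hMg (hG1 t), fun t => hasNu_closure hnu (hMg (hG1 t)),
    fun t => hnint _ (hG1 t), fun t => hμM _ (hG1 t), ?_⟩
  intro s t hst
  apply hf2
  rw [← hG2, ← hG2]
  exact hst

/-- the classes are countable -/
lemma countable_class (hd : 0 < d) {G : (ℕ → Bool) → Matrix (Fin d) (Fin d) ℝ} {μ : ℝ}
    (hμ : 0 < μ) (hG : ∀ t, nuInf (G t) = μ) (hinj : Function.Injective fun t => Phi (G t))
    (t : ℕ → Bool) : {s | QE (G s) (G t)}.Countable := by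
  classical
  let E : Bool × Matrix (Fin d) (Fin d) ℚ → ((Fin d → ℤ) → ℝ) := fun p x =>
    (if p.1 then 1 else -1) * (μ / nuF (fun y => FF (G t) (qR (p.2 *ᵥ fun j => (y j : ℚ))))) *
      FF (G t) (qR (p.2 *ᵥ fun j => (x j : ℚ)))
  have hE : (Set.range E).Countable := by
    have : Countable (Bool × Matrix (Fin d) (Fin d) ℚ) :=
      inferInstanceAs (Countable (Bool × (Fin d → Fin d → ℚ)))
    exact Set.countable_range E
  refine (hE.preimage_of_injOn (f := fun t => Phi (G t)) hinj.injOn).mono ?_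
  rintro s ⟨c, γ, hc, hγ, H⟩
  have H' : Phi (G s) = fun x => c * FF (G t) (qR (γ *ᵥ fun j => (x j : ℚ))) := by
    funext x
    have h1 := H (fun j => (x j : ℚ))
    have h2 : qR (fun j => (x j : ℚ)) = iR x := by
      funext j
      simp [qR, iR]
    rw [h2] at h1
    exact h1
  have h1 : μ = |c| * nuF (fun y => FF (G t) (qR (γ *ᵥ fun j => (y j : ℚ)))) := by
    rw [← nuF_mul, ← H', ← nuInf_eq, hG]
  have h2 : nuF (fun y : Fin d → ℤ => FF (G t) (qR (γ *ᵥ fun j => (y j : ℚ)))) ≠ 0 := by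
    intro h0
    rw [h0, mul_zero] at h1
    exact hμ.ne' h1
  have h3 : |c| = μ / nuF (fun y => FF (G t) (qR (γ *ᵥ fun j => (y j : ℚ)))) := by
    rw [h1, mul_div_cancel_right₀ _ h2]
  show Phi (G s) ∈ Set.range E
  rcases abs_choice c with hc' | hc'
  · refine ⟨(true, γ), ?_⟩
    rw [H']
    funext x
    simp only [E, if_true, one_mul]
    rw [← h3, hc']
  · refine ⟨(false, γ), ?_⟩
    rw [H']
    funext x
    simp only [E, Bool.false_eq_true, if_false]
    rw [← h3, hc']
    ring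

/-- **Continuum many counterexamples.** -/
theorem continuum_many (hd : 3 ≤ d) {g : Matrix (Fin d) (Fin d) ℝ} (hg : g.det ≠ 0) {ν : ℝ}
    (hν : 0 < ν) (hnu : HasNu g ν) (hint : ¬ PropInt g) :
    ∃ K : ℝ → Matrix (Fin d) (Fin d) ℝ,
      (∀ t, K t ∈ closure (Orb g) ∧ HasNu (K t) ν ∧ ¬ PropInt (K t)) ∧
      ∀ s t, s ≠ t → ∀ (c : ℝ) (γ : Matrix (Fin d) (Fin d) ℚ), ∃ x : Fin d → ℤ,
        FF (K s) (iR x) ≠ c * FF (K t) (qR (γ *ᵥ fun j => (x j : ℚ))) := by
  classical
  have hd0 : 0 < d := by omega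
  obtain ⟨G, μ, hμ, hG1, hG2, hG3, hG4, hinj⟩ := exists_perfect hd hg hν hnu hint
  let S : Setoid (ℕ → Bool) :=
    { r := fun s t => QE (G s) (G t)
      iseqv := ⟨fun s => QE.refl _, fun h => h.symm, fun h h' => h.trans h'⟩ }
  have hfib : ∀ q : Quotient S, Cardinal.mk {s : ℕ → Bool // Quotient.mk S s = q} ≤
      Cardinal.aleph0 := by
    intro q
    obtain ⟨t, rfl⟩ := Quotient.exists_rep q
    have h1 := countable_class hd0 hμ hG4 hinj t
    have h2 : {s : ℕ → Bool | Quotient.mk S s = Quotient.mk S t} = {s | QE (G s) (G t)} := by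
      ext s
      exact Quotient.eq (r := S)
    have h3 : {s : ℕ → Bool | Quotient.mk S s = Quotient.mk S t}.Countable := by
      rw [h2]; exact h1
    exact Cardinal.mk_le_aleph0_iff.2 h3.to_subtype
  have hcard : Cardinal.continuum ≤ Cardinal.mk (Quotient S) := by
    by_contra hlt
    push Not at hlt
    have h1 : Cardinal.mk (ℕ → Bool) = Cardinal.continuum := by simp
    have h2 : Cardinal.mk (ℕ → Bool) ≤ Cardinal.mk (Quotient S) * Cardinal.aleph0 := by
      rw [← Cardinal.mk_congr (Equiv.sigmaFiberEquiv (Quotient.mk S)), Cardinal.mk_sigma]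
      refine (Cardinal.sum_le_sum _ (fun _ => Cardinal.aleph0) hfib).trans ?_
      rw [Cardinal.sum_const']
    have h3 : Cardinal.mk (Quotient S) * Cardinal.aleph0 < Cardinal.continuum :=
      Cardinal.mul_lt_of_lt Cardinal.aleph0_le_continuum hlt Cardinal.aleph0_lt_continuum
    exact absurd (h1 ▸ h2.trans_lt h3) (lt_irrefl _)
  rw [← Cardinal.mk_real] at hcard
  obtain ⟨ι⟩ := hcard
  refine ⟨fun t => G (ι t).out, fun t => ⟨hG1 _, hG2 _, hG3 _⟩, fun s t hst c γ => ?_⟩
  by_contra hcon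
  push Not at hcon
  have h1 : QE (G (ι s).out) (G (ι t).out) := QE_of_int hd0 hν (hG2 _) hcon
  apply hst
  apply ι.injective
  have h2 : Quotient.mk S (ι s).out = Quotient.mk S (ι t).out := Quotient.sound h1
  rwa [Quotient.out_eq, Quotient.out_eq] at h2

end Pool.Agent.Y705.OP
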